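import Pool.Agent.W247.ET.Stm

/-!
# Project ET, part ASM
-/

set_option autoImplicit false

open Finset MeasureTheory

namespace Pool.Agent.W119.ET

open Pool.Agent.W247.ET

theorem quads_pos {B : Finset ℕ} {N i i' : ℕ} (hB : B ⊆ Icc 1 N) {q : (ℕ × ℕ) × (ℕ × ℕ)}
    (hq : q ∈ quads B i i') : (0 : ℝ) < q.1.1 ∧ (0 : ℝ) < q.1.2 ∧ (0 : ℝ) < q.2.1 ∧
      (0 : ℝ) < q.2.2 := by
  unfold quads at hq
  simp only [mem_filter, mem_product] at hq
  obtain ⟨⟨⟨h1, h2⟩, h3, h4⟩, _⟩ := hq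
  have f : ∀ a ∈ B, (0 : ℝ) < a := fun a ha => by
    have := (mem_Icc.1 (hB ha)).1
    exact_mod_cast this
  exact ⟨f _ h1, f _ h2, f _ h3, f _ h4⟩

theorem SS_int (hK : KINT_stmt) {P : ℝ → ℝ → ℝ} (hP : P = P1 ∨ P = P2) {B : Finset ℕ} {N : ℕ}
    (hB : B ⊆ Icc 1 N) (i i' : ℕ) : IntegrableOn (SS P B i i') (Set.Ioi 0) := by
  have h : IntegrableOn (fun y => ∑ q ∈ quads B i i', kf P q.1.1 q.1.2 q.2.1 q.2.2 y)
      (Set.Ioi 0) := by
    apply integrable_finsetSum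
    intro q hq
    obtain ⟨h1, h2, h3, h4⟩ := quads_pos hB hq
    exact hK P hP _ _ _ _ h1 h2 h3 h4
  exact h

theorem QS_eq (hK : KINT_stmt) {P : ℝ → ℝ → ℝ} (hP : P = P1 ∨ P = P2) {B : Finset ℕ} {N : ℕ}
    (hB : B ⊆ Icc 1 N) (i i' : ℕ) : ∫ y in Set.Ioi (0 : ℝ), SS P B i i' y = QS P B i i' := by
  unfold SS QS KK
  apply integral_finsetSum
  intro q hq
  obtain ⟨h1, h2, h3, h4⟩ := quads_pos hB hq
  exact hK P hP _ _ _ _ h1 h2 h3 h4

theorem G_zero {P : ℝ → ℝ → ℝ} {B : Finset ℕ} {N : ℕ} (hB : B ⊆ Icc 1 N) (y : ℝ) (j : ℤ)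
    (hj : (N : ℤ) < |j|) : G P B y j = 0 := by
  unfold G
  rw [Finset.sum_eq_zero]
  intro p hp
  exfalso
  simp only [mem_filter, mem_product] at hp
  obtain ⟨⟨h1, h2⟩, h3⟩ := hp
  have e1 := mem_Icc.1 (hB h1)
  have e2 := mem_Icc.1 (hB h2)
  rw [lt_abs] at hj
  omega

theorem G_sq {P : ℝ → ℝ → ℝ} (B : Finset ℕ) (y : ℝ) (j : ℤ) : G P B y j ^ 2 =
    ∑ p ∈ (B ×ˢ B).filter (fun p : ℕ × ℕ => (p.1 : ℤ) - p.2 = j),
    ∑ q ∈ (B ×ˢ B).filter (fun p : ℕ × ℕ => (p.1 : ℤ) - p.2 = j), kf P p.1 p.2 q.1 q.2 y := by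
  unfold G
  rw [sq, Finset.sum_mul_sum]
  apply Finset.sum_congr rfl
  intro p _
  apply Finset.sum_congr rfl
  intro q _
  unfold kf
  have : Real.exp (-((p.1 + p.2 + q.1 + q.2 : ℝ) * y)) =
      Real.exp (-(((p.1 : ℝ) + p.2) * y)) * Real.exp (-(((q.1 : ℝ) + q.2) * y)) := by
    rw [← Real.exp_add]
    congr 1
    ring
  rw [this]
  ring

theorem G_int (hK : KINT_stmt) {P : ℝ → ℝ → ℝ} (hP : P = P1 ∨ P = P2) {B : Finset ℕ} {N : ℕ}
    (hB : B ⊆ Icc 1 N) (j : ℤ) : IntegrableOn (fun y => G P B y j ^ 2) (Set.Ioi 0) := by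
  simp_rw [G_sq]
  have f : ∀ a ∈ B, (0 : ℝ) < a := fun a ha => by
    have := (mem_Icc.1 (hB ha)).1
    exact_mod_cast this
  apply integrable_finsetSum
  intro p hp
  apply integrable_finsetSum
  intro q hq
  simp only [mem_filter, mem_product] at hp hq
  exact hK P hP _ _ _ _ (f _ hp.1.1) (f _ hp.1.2) (f _ hq.1.1) (f _ hq.1.2)

theorem sumsq (hQ : QUAD_stmt) {P : ℝ → ℝ → ℝ} {B : Finset ℕ} {N : ℕ}
    (hB : B ⊆ Icc 1 N) (J : ℕ) (y : ℝ) :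
    ∑ j ∈ Icc (-((N : ℤ) + J)) ((N : ℤ) + J), G P B y j ^ 2 = SS P B 0 0 y := by
  rw [← hQ P B N J _ y 0 0 hB (Nat.zero_le _) (Nat.zero_le _) le_rfl]
  apply Finset.sum_congr rfl
  intro j _
  simp [sq]

theorem sumsq2 (hQ : QUAD_stmt) {P : ℝ → ℝ → ℝ} {B : Finset ℕ} {N : ℕ}
    (hB : B ⊆ Icc 1 N) (J : ℕ) (y : ℝ) :
    ∑ j ∈ Icc (-((N : ℤ) + J)) ((N : ℤ) + J), (∑ i ∈ range J, G P B y (j + i)) ^ 2 =
      ∑ i ∈ range J, ∑ i' ∈ range J, SS P B i i' y := by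
  have h1 : ∀ j : ℤ, (∑ i ∈ range J, G P B y (j + i)) ^ 2 =
      ∑ i ∈ range J, ∑ i' ∈ range J, G P B y (j + i) * G P B y (j + i') := by
    intro j
    rw [sq, Finset.sum_mul_sum]
  simp_rw [h1]
  rw [Finset.sum_comm]
  apply Finset.sum_congr rfl
  intro i hi
  rw [Finset.sum_comm]
  apply Finset.sum_congr rfl
  intro i' hi'
  exact hQ P B N J _ y i i' hB (mem_range.1 hi).le (mem_range.1 hi').le le_rfl

theorem main (hP : POS_stmt) (hQ : QUAD_stmt) (hK : KINT_stmt) : ASM_stmt := by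
  intro B N J hB hJ
  refine ⟨G_int hK (Or.inr rfl) hB 0, ?_⟩
  have a1 : ∀ y : ℝ, 0 ≤ SS P1 B 0 0 y -
      (∑ i ∈ range J, ∑ i' ∈ range J, SS P1 B i i' y) / (J : ℝ) ^ 2 := by
    intro y
    have := (hP N J (G P1 B y) ((N : ℤ) + J) hJ (fun j hj => G_zero hB y j hj) le_rfl).1
    rwa [sumsq hQ hB, sumsq2 hQ hB] at this
  have a2 : ∀ y : ℝ, G P2 B y 0 ^ 2 - 2 / √(J : ℝ) * SS P2 B 0 0 y ≤ SS P2 B 0 0 y -
      (∑ i ∈ range J, ∑ i' ∈ range J, SS P2 B i i' y) / (J : ℝ) ^ 2 := by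
    intro y
    have := (hP N J (G P2 B y) ((N : ℤ) + J) hJ (fun j hj => G_zero hB y j hj) le_rfl).2
    rwa [sumsq hQ hB, sumsq2 hQ hB] at this
  have i1 := fun i i' => SS_int hK (Or.inl rfl) hB i i'
  have i2 := fun i i' => SS_int hK (Or.inr rfl) hB i i'
  have g0 := G_int hK (Or.inr rfl) hB 0
  -- double sums
  have d1 : IntegrableOn (fun y => ∑ i ∈ range J, ∑ i' ∈ range J,
      (SS P1 B i i' y + SS P2 B i i' y)) (Set.Ioi 0) := by
    apply integrable_finsetSum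
    intro i _
    apply integrable_finsetSum
    intro i' _
    exact (i1 i i').add (i2 i i')
  have d2 : ∫ y in Set.Ioi (0 : ℝ), ∑ i ∈ range J, ∑ i' ∈ range J,
      (SS P1 B i i' y + SS P2 B i i' y) =
      ∑ i ∈ range J, ∑ i' ∈ range J, (QS P1 B i i' + QS P2 B i i') := by
    rw [integral_finsetSum]
    · apply Finset.sum_congr rfl
      intro i _
      rw [integral_finsetSum]
      · apply Finset.sum_congr rfl
        intro i' _
        rw [integral_add (i1 i i') (i2 i i'), QS_eq hK (Or.inl rfl) hB, QS_eq hK (Or.inr rfl) hB]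
      · intro i' _
        exact (i1 i i').add (i2 i i')
    · intro i _
      apply integrable_finsetSum
      intro i' _
      exact (i1 i i').add (i2 i i')
  have key : ∫ y in Set.Ioi (0 : ℝ), (G P2 B y 0 ^ 2 - 2 / √(J : ℝ) * SS P2 B 0 0 y) ≤
      ∫ y in Set.Ioi (0 : ℝ), ((SS P1 B 0 0 y + SS P2 B 0 0 y) -
        (∑ i ∈ range J, ∑ i' ∈ range J, (SS P1 B i i' y + SS P2 B i i' y)) / (J : ℝ) ^ 2) := by
    apply integral_mono
    · exact g0.sub ((i2 0 0).const_mul _)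
    · exact ((i1 0 0).add (i2 0 0)).sub (d1.div_const _)
    · intro y
      have h1 := a1 y
      have h2 := a2 y
      simp only [Finset.sum_add_distrib, add_div]
      linarith
  have i12 : IntegrableOn (fun y => SS P1 B 0 0 y + SS P2 B 0 0 y) (Set.Ioi 0) :=
    (i1 0 0).add (i2 0 0)
  have key2 : ∫ y in Set.Ioi (0 : ℝ), ((SS P1 B 0 0 y + SS P2 B 0 0 y) -
        (∑ i ∈ range J, ∑ i' ∈ range J, (SS P1 B i i' y + SS P2 B i i' y)) / (J : ℝ) ^ 2) =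
      LK B J := by
    rw [integral_sub i12 (d1.div_const _), integral_add (i1 0 0) (i2 0 0),
      QS_eq hK (Or.inl rfl) hB, QS_eq hK (Or.inr rfl) hB, integral_div, d2]
    rfl
  rw [integral_sub g0 ((i2 0 0).const_mul _), integral_const_mul, QS_eq hK (Or.inr rfl) hB,
    key2] at key
  exact key

end Pool.Agent.W119.ET
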